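import Pool.Agent.Y817.ISO.Stm

set_option autoImplicit false

/-!
# ISO-CODE (job 2018, helper44 for helper817): computable codes of the presentations
-/

namespace Pool.Agent.Y44.ISO.Code

open Pool.Agent.Y817.ISO

theorem rep {α : Type} [Primcodable α] (a : α) : Primrec fun n : ℕ => List.replicate n a := by
  have h : Primrec (Nat.rec (motive := fun _ => List α) [] (fun _ l => a :: l)) :=
    Primrec.nat_rec₁ [] (Primrec.list_cons.comp₂ (Primrec₂.const a) Primrec₂.right)
  refine h.of_eq fun n => ?_
  induction n with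
  | zero => rfl
  | succ n ih =>
    change a :: Nat.rec (motive := fun _ => List α) [] (fun _ l => a :: l) n = _
    rw [ih, List.replicate_succ]

theorem prim_W (c x t τ : ℕ) : Primrec fun n : ℕ => W c x t τ n := by
  unfold W
  have hc : ∀ (a : ℕ × Bool) (g : ℕ → List (ℕ × Bool)), Primrec g →
      Primrec fun n => a :: g n := fun a g hg => Primrec.list_cons.comp (Primrec.const a) hg
  have ha : ∀ (f g : ℕ → List (ℕ × Bool)), Primrec f → Primrec g →
      Primrec fun n => f n ++ g n := fun f g hf hg => Primrec.list_append.comp hf hg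
  have r := fun a : ℕ × Bool => rep a
  exact hc _ _ (ha _ _ (r _) (hc _ _ (ha _ _ (r _) (hc _ _ (ha _ _ (r _) (hc _ _ (ha _ _ (r _)
    (hc _ _ (ha _ _ (r _) (hc _ _ (ha _ _ (r _) (hc _ _ (ha _ _ (r _) (hc _ _ (r _)))))))))))))))

theorem map_W {A B : Type} (h : A → B) (c x t τ : A) (n : ℕ) :
    (W c x t τ n).map (Prod.map h id) = W (h c) (h x) (h t) (h τ) n := by
  simp [W, List.map_replicate]

theorem t : StmCode := by
  classical
  intro A _ c x t τ L
  set N := Fintype.card A with hN
  set ε : A ≃ Fin N := Fintype.equivFin A with hε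
  set v : A → ℕ := fun a => (ε a : ℕ) with hv
  refine ⟨fun n => (N, W (v c) (v x) (v t) (v τ) n :: L.map (List.map (Prod.map v id))), ?_, ?_⟩
  · apply Primrec.to_comp
    exact Primrec.pair (Primrec.const N)
      (Primrec.list_cons.comp (prim_W _ _ _ _) (Primrec.const _))
  · intro n
    have key : ∀ w : List (A × Bool), FreeGroup.mk ((w.map (Prod.map v id)).filterMap
        (fun q => if h : q.1 < N then some ((⟨q.1, h⟩ : Fin N), q.2) else none)) =
        FreeGroup.freeGroupCongr ε (FreeGroup.mk w) := by
      intro w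
      rw [FreeGroup.freeGroupCongr_apply, FreeGroup.map.mk]
      congr 1
      rw [List.filterMap_map]
      have : ((fun q : ℕ × Bool => if h : q.1 < N then some ((⟨q.1, h⟩ : Fin N), q.2) else none) ∘
          Prod.map v id) = fun q : A × Bool => some (ε q.1, q.2) := by
        funext q
        simp only [Function.comp_apply, Prod.map_fst, Prod.map_snd, id_eq]
        rw [dif_pos (ε q.1).2]
      rw [this, List.filterMap_eq_map']
    have hset : relSet (N, W (v c) (v x) (v t) (v τ) n :: L.map (List.map (Prod.map v id))) =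
        FreeGroup.freeGroupCongr ε '' {g : FreeGroup A | ∃ w ∈ W c x t τ n :: L,
          g = FreeGroup.mk w} := by
      have h1 : W (v c) (v x) (v t) (v τ) n :: L.map (List.map (Prod.map v id)) =
          (W c x t τ n :: L).map (List.map (Prod.map v id)) := by
        rw [List.map_cons, map_W]
      rw [h1]
      ext g
      constructor
      · rintro ⟨w', hw', rfl⟩
        obtain ⟨w, hw, rfl⟩ := List.mem_map.1 hw'
        exact ⟨FreeGroup.mk w, ⟨w, hw, rfl⟩, (key w).symm⟩
      · rintro ⟨_, ⟨w, hw, rfl⟩, rfl⟩
        exact ⟨w.map (Prod.map v id), List.mem_map.2 ⟨w, hw, rfl⟩, (key w).symm⟩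
    change Nonempty (PresentedGroup (relSet (N, _)) ≃* _)
    rw [hset]
    exact ⟨(PresentedGroup.equivPresentedGroup _ ε).symm⟩

end Pool.Agent.Y44.ISO.Code
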