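import Pool.Agent.Y817.ISO.Stm
import Pool.Agent.Helper694.CS.J_hnn_tf

set_option autoImplicit false

/-!
# ISO-MHNN (job 2007, helper44 for helper817): multiple HNN extensions
-/

namespace Pool.Agent.Y44.ISO.MHNN

open Pool.Agent.Y817.ISO

/-- the conclusion of MHNN for an index type -/
def Con (ι : Type) : Prop := ∀ (G : Type) [Group G] (Q : ι → Type)
  [∀ i, Group (Q i)] (f g : ∀ i, Q i →* G), (∀ i, Function.Injective (f i)) →
  (∀ i, Function.Injective (g i)) →
  ∃ (K : Type) (_ : Group K) (of : G →* K) (r : ι → K), Function.Injective of ∧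
    (∀ i q, r i * of (f i q) = of (g i q) * r i) ∧ (TF G → TF K) ∧
    Subgroup.closure (Set.range of ∪ Set.range r) = ⊤ ∧
    ∀ (H : Type) [Group H] (φ : G →* H) (s : ι → H),
      (∀ i q, s i * φ (f i q) = φ (g i q) * s i) →
      ∃ Φ : K →* H, (∀ x, Φ (of x) = φ x) ∧ ∀ i, Φ (r i) = s i

theorem con_equiv {ι κ : Type} (e : ι ≃ κ) (h : Con ι) : Con κ := by
  intro G _ Q _ f g hf hg
  obtain ⟨K, _, of, r, h1, h2, h3, h4, h5⟩ := h G (fun i => Q (e i)) (fun i => f (e i))
    (fun i => g (e i)) (fun i => hf (e i)) (fun i => hg (e i))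
  refine ⟨K, inferInstance, of, fun k => r (e.symm k), h1, ?_, h3, ?_, ?_⟩
  · intro k q
    obtain ⟨i, rfl⟩ := e.surjective k
    simp only [Equiv.symm_apply_apply]
    exact h2 i q
  · rw [← h4]
    congr 2
    ext x
    constructor
    · rintro ⟨k, rfl⟩
      exact ⟨e.symm k, rfl⟩
    · rintro ⟨i, rfl⟩
      exact ⟨e i, by simp only [Equiv.symm_apply_apply]⟩
  · intro H _ φ s hs
    obtain ⟨Φ, a, b⟩ := h5 H φ (fun i => s (e i)) (fun i q => hs (e i) q)
    refine ⟨Φ, a, fun k => ?_⟩
    obtain ⟨i, rfl⟩ := e.surjective k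
    simp only [Equiv.symm_apply_apply]
    exact b i

theorem con_empty : Con PEmpty := by
  intro G _ Q _ f g _ _
  refine ⟨G, inferInstance, MonoidHom.id G, PEmpty.elim, fun _ _ h => h, fun i => i.elim, id, ?_,
    ?_⟩
  · rw [eq_top_iff]
    intro x _
    exact Subgroup.subset_closure (Or.inl ⟨x, rfl⟩)
  · intro H _ φ s _
    exact ⟨φ, fun _ => rfl, fun i => i.elim⟩

theorem con_option {ι : Type} (h : Con ι) : Con (Option ι) := by
  intro G _ Q _ f g hf hg
  obtain ⟨K, _, of, r, h1, h2, h3, h4, h5⟩ := h G (fun i => Q (some i)) (fun i => f (some i))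
    (fun i => g (some i)) (fun i => hf (some i)) (fun i => hg (some i))
  set A : Subgroup K := (of.comp (f none)).range with hA
  set B : Subgroup K := (of.comp (g none)).range with hB
  set eA : Q none ≃* A := MonoidHom.ofInjective (f := of.comp (f none)) (h1.comp (hf none)) with heA
  set eB : Q none ≃* B := MonoidHom.ofInjective (f := of.comp (g none)) (h1.comp (hg none)) with heB
  set ψ : A ≃* B := eA.symm.trans eB with hψ
  have e1 : ∀ q, ((eA q : A) : K) = of (f none q) := fun q => rfl
  have e2 : ∀ q, ((eB q : B) : K) = of (g none q) := fun q => rfl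
  have e3 : ∀ q, ψ (eA q) = eB q := by
    intro q
    rw [hψ, MulEquiv.trans_apply, MulEquiv.symm_apply_apply]
  set ι' : K →* HNNExtension K A B ψ := HNNExtension.of with hι
  refine ⟨HNNExtension K A B ψ, inferInstance, ι'.comp of,
    fun o => o.elim HNNExtension.t (fun i => ι' (r i)), ?_, ?_, ?_, ?_, ?_⟩
  · exact (HNNExtension.of_injective ψ).comp h1
  · intro o q
    cases o with
    | none =>
      change HNNExtension.t * ι' (of (f none q)) = ι' (of (g none q)) * HNNExtension.t
      rw [← e1, ← e2, ← e3]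
      exact HNNExtension.t_mul_of (φ := ψ) (eA q)
    | some i =>
      change ι' (r i) * ι' (of (f (some i) q)) = ι' (of (g (some i) q)) * ι' (r i)
      rw [← map_mul, ← map_mul, h2 i q]
  · intro hG x hx
    by_contra hne
    exact Pool.CS.hnn_tf ψ (fun k hk hk' => hk (h3 hG k hk')) x hne hx
  · rw [eq_top_iff]
    intro x _
    set S := Subgroup.closure (Set.range (ι'.comp of) ∪
      Set.range (fun o : Option ι => o.elim HNNExtension.t (fun i => ι' (r i)))) with hS
    have hK : ∀ y : K, ι' y ∈ S := by
      intro y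
      have hy : y ∈ Subgroup.closure (Set.range of ∪ Set.range r) := by
        rw [h4]
        trivial
      have hle : Subgroup.closure (Set.range of ∪ Set.range r) ≤ S.comap ι' := by
        rw [Subgroup.closure_le]
        rintro z (⟨w, rfl⟩ | ⟨i, rfl⟩)
        · exact Subgroup.subset_closure (Or.inl ⟨w, rfl⟩)
        · exact Subgroup.subset_closure (Or.inr ⟨some i, rfl⟩)
      exact hle hy
    have ht : (HNNExtension.t : HNNExtension K A B ψ) ∈ S :=
      Subgroup.subset_closure (Or.inr ⟨none, rfl⟩)
    induction x using HNNExtension.induction_on with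
    | of g => exact hK g
    | t => exact ht
    | mul x y hx hy => exact S.mul_mem (hx trivial) (hy trivial)
    | inv x hx => exact S.inv_mem (hx trivial)
  · intro H _ φ s hs
    obtain ⟨Φ, a, b⟩ := h5 H φ (fun i => s (some i)) (fun i q => hs (some i) q)
    refine ⟨HNNExtension.lift Φ (s none) ?_, ?_, ?_⟩
    · intro x
      obtain ⟨q, rfl⟩ := eA.surjective x
      rw [e3, e1, e2, a, a]
      exact hs none q
    · intro x
      change HNNExtension.lift Φ (s none) _ (HNNExtension.of (of x)) = φ x
      rw [HNNExtension.lift_of, a]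
    · intro o
      cases o with
      | none => exact HNNExtension.lift_t _ _ _
      | some i =>
        change HNNExtension.lift Φ (s none) _ (HNNExtension.of (r i)) = s (some i)
        rw [HNNExtension.lift_of, b]

theorem t : StmMHNN := by
  intro G _ ι _ Q _ f g hf hg
  have h : Con ι := Finite.induction_empty_option (P := Con) (fun e h => con_equiv e h) con_empty
    (fun h => con_option h) ι
  exact h G Q f g hf hg

end Pool.Agent.Y44.ISO.MHNN
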